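import Pool.Agent.Helper21.FX.StF
set_option autoImplicit false
namespace Pool.Agent.Helper61.FX
open Pool.Agent.Helper72.FX Pool.Agent.Helper21.FX Polynomial

/-- Pseudo division. -/
theorem rnk_div {k : Type} [CommRing k] [IsDomain k] (n : k[X]) (hn : n ≠ 0) (m : ℕ) :
    ∀ f : k[X], f.degree < (m : WithBot ℕ) → ∃ c : k, c ≠ 0 ∧ ∃ g : k[X], g.degree < (n.natDegree : WithBot ℕ) ∧
      ∃ h : k[X], C c * f = g + n * h := by
  induction m with
  | zero =>
    intro f hf
    have : f = 0 := by
      by_contra h0
      have := zero_le_degree_iff.2 h0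
      simp at hf
      exact h0 hf
    subst this
    exact ⟨1, one_ne_zero, 0, by simp, 0, by simp⟩
  | succ m ih =>
    intro f hf
    rcases lt_or_ge m n.natDegree with hm | hm
    · refine ⟨1, one_ne_zero, f, lt_of_lt_of_le hf ?_, 0, by simp⟩
      exact_mod_cast hm
    · have hf' : (C n.leadingCoeff * f - C (f.coeff m) * X ^ (m - n.natDegree) * n).degree < (m : WithBot ℕ) := by
        rw [Polynomial.degree_lt_iff_coeff_zero]
        intro i hi
        rw [coeff_sub, coeff_C_mul, mul_assoc, coeff_C_mul, coeff_X_pow_mul']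
        rcases eq_or_lt_of_le hi with h | h
        · subst h
          rw [if_pos (by omega)]
          have : m - (m - n.natDegree) = n.natDegree := by omega
          rw [this, coeff_natDegree]
          ring
        · rw [if_pos (by omega)]
          have h1 : f.coeff i = 0 := by
            apply coeff_eq_zero_of_degree_lt
            refine lt_of_lt_of_le hf ?_
            exact_mod_cast h
          have h2 : n.coeff (i - (m - n.natDegree)) = 0 := by
            apply coeff_eq_zero_of_natDegree_lt
            omega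
          rw [h1, h2]
          ring
      obtain ⟨c, hc, g, hg, h, hh⟩ := ih _ hf'
      refine ⟨c * n.leadingCoeff, mul_ne_zero hc (leadingCoeff_ne_zero.2 hn), g, hg,
        h + C c * C (f.coeff m) * X ^ (m - n.natDegree), ?_⟩
      rw [C_mul]
      linear_combination hh

theorem hRNK : StRNK := by
  intro k _ _ n hn
  let q : k[X] →ₗ[k] (k[X] ⧸ Ideal.span {n}) := (Ideal.Quotient.mkₐ k (Ideal.span {n})).toLinearMap
  let j : degreeLT k n.natDegree →ₗ[k] (k[X] ⧸ Ideal.span {n}) := q.comp (degreeLT k n.natDegree).subtype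
  have hj : Function.Injective j := by
    rw [← LinearMap.ker_eq_bot, LinearMap.ker_eq_bot']
    rintro ⟨f, hf⟩ h0
    have h1 : f ∈ Ideal.span {n} := Ideal.Quotient.eq_zero_iff_mem.1 h0
    rw [Ideal.mem_span_singleton] at h1
    have h2 : f.degree < n.degree := by
      rw [degree_eq_natDegree hn]
      exact mem_degreeLT.1 hf
    have h3 : f = 0 := by
      by_contra h0
      exact absurd (degree_le_of_dvd h1 h0) (not_le.2 h2)
    exact Subtype.ext h3
  have h1 : Module.rank k (LinearMap.range j) = (n.natDegree : Cardinal) := by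
    rw [← (LinearEquiv.ofInjective j hj).rank_eq, (degreeLTEquiv k _).rank_eq, rank_fin_fun]
  have h2 : Module.rank k ((k[X] ⧸ Ideal.span {n}) ⧸ LinearMap.range j) = 0 := by
    rw [rank_eq_zero_iff]
    intro x
    obtain ⟨y, rfl⟩ := Submodule.Quotient.mk_surjective _ x
    obtain ⟨f, rfl⟩ := Ideal.Quotient.mk_surjective y
    obtain ⟨c, hc, g, hg, h, hh⟩ := rnk_div n hn (f.natDegree + 1) f
      (lt_of_le_of_lt degree_le_natDegree (by exact_mod_cast Nat.lt_succ_self _))
    refine ⟨c, hc, ?_⟩
    rw [← Submodule.Quotient.mk_smul, Submodule.Quotient.mk_eq_zero]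
    refine ⟨⟨g, mem_degreeLT.2 hg⟩, ?_⟩
    change Ideal.Quotient.mk (Ideal.span {n}) g = c • Ideal.Quotient.mk (Ideal.span {n}) f
    have : c • Ideal.Quotient.mk (Ideal.span {n}) f = Ideal.Quotient.mk (Ideal.span {n}) (C c * f) := by
      rw [← smul_eq_C_mul]
      rfl
    rw [this, hh, map_add, map_mul, Ideal.Quotient.eq_zero_iff_mem.2 (Ideal.mem_span_singleton_self n)]
    simp
  rw [← rank_quotient_add_rank_of_isDomain (LinearMap.range j), h2, h1, zero_add]

end Pool.Agent.Helper61.FX
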