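import Pool.Agent.Helper84.FX.StG

set_option autoImplicit false

/-!
# Project FX (MP_3bffab_ag): module GL (gluing along a zero set).
-/

namespace Pool.Agent.Helper61.FX

open Set
open Pool.Agent.Helper84.FX

private theorem TT_lt {E V : Type} [TopologicalSpace E] [NormedAddCommGroup V] [NormedSpace ℝ V]
    (M : Set E) (g : E → V) (S : Set V) (hS : ∀ v ∈ S, ‖v‖ < 1) :
    TT M g ∩ {q | q.2 ∈ S} = {x | x ∈ M ∧ g x = 0} ×ˢ S := by
  ext ⟨x, v⟩
  constructor
  · rintro ⟨⟨hx, _, hg⟩, hv⟩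
    refine ⟨⟨hx, ?_⟩, hv⟩
    simp only at hg
    have h1 : ‖g x‖ = ‖g x‖ * ‖v‖ := by
      have h2 := congrArg norm hg
      rw [norm_smul, norm_norm] at h2
      exact h2
    have h3 := hS v hv
    have h4 : ‖g x‖ * (1 - ‖v‖) = 0 := by linarith
    rcases mul_eq_zero.1 h4 with h5 | h5
    · exact norm_eq_zero.1 h5
    · linarith
  · rintro ⟨⟨hx, hg⟩, hv⟩
    have h3 := hS v hv
    simp only at hg
    refine ⟨⟨hx, h3.le, ?_⟩, hv⟩
    simp only
    rw [hg]
    simp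

theorem hGL : StGLU → StPRD → StCMP → StCN3 → StHTP → StGL := by
  intro hGLU hPRD hCMP hCN3 _ E F V _ _ _ _ _ N M f g hf hTM hTN hZ hN0
  have hcont : ContinuousOn (fun q : E × V => (f q.1, q.2)) (TT N (fun x => g (f x))) := by
    apply ContinuousOn.prodMk
    · exact hf.1.comp continuous_fst.continuousOn (fun q hq => hq.1)
    · exact continuous_snd.continuousOn
  have hmaps : MapsTo (fun q : E × V => (f q.1, q.2)) (TT N (fun x => g (f x))) (TT M g) := by
    intro q hq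
    exact ⟨hf.2 hq.1, hq.2.1, hq.2.2⟩
  have o1 : ∀ (G : Type) [TopologicalSpace G], IsOpen {q : G × V | q.2 ∈ {v : V | v ≠ 0}} := by
    intro G _
    exact isOpen_ne.preimage continuous_snd
  have o2 : ∀ (G : Type) [TopologicalSpace G], IsOpen {q : G × V | q.2 ∈ {v : V | ‖v‖ < 1}} := by
    intro G _
    exact (isOpen_lt continuous_norm continuous_const).preimage continuous_snd
  have cov : ∀ (G : Type) (q : G × V), q ∈ {q : G × V | q.2 ∈ {v : V | v ≠ 0}} ∪
      {q : G × V | q.2 ∈ {v : V | ‖v‖ < 1}} := by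
    intro G q
    by_cases h : q.2 = 0
    · right
      change ‖q.2‖ < 1
      rw [h, norm_zero]
      exact one_pos
    · left
      exact h
  have claim : WE (TT N (fun x => g (f x))) (TT M g) (fun q : E × V => (f q.1, q.2)) := by
    refine hGLU (E × V) (F × V) _ _ _ {q : E × V | q.2 ∈ {v : V | v ≠ 0}}
      {q : E × V | q.2 ∈ {v : V | ‖v‖ < 1}} {q : F × V | q.2 ∈ {v : V | v ≠ 0}}
      {q : F × V | q.2 ∈ {v : V | ‖v‖ < 1}} (o1 E) (o2 E) (o1 F) (o2 F)
      (fun q _ => cov E q) (fun q _ => cov F q) ?_ ?_ ?_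
    · have h1 := hCMP E F (F × V) _ _ _ f _ hN0 hTM.2.2
      refine hCN3 E (E × V) (F × V) {x | x ∈ N ∧ g (f x) ≠ 0} _ _
        (fun x => (x, ‖g (f x)‖⁻¹ • g (f x))) _ ⟨hcont.mono inter_subset_left, ?_⟩ hTN.2.2 h1
      intro q hq
      exact ⟨hmaps hq.1, hq.2⟩
    · rw [TT_lt N (fun x => g (f x)) {v : V | ‖v‖ < 1} (fun v hv => hv),
        TT_lt M g {v : V | ‖v‖ < 1} (fun v hv => hv)]
      exact hPRD E F V _ _ {v : V | ‖v‖ < 1} f hZ
    · have e1 := TT_lt N (fun x => g (f x)) {v : V | v ≠ 0 ∧ ‖v‖ < 1} (fun v hv => hv.2)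
      have e2 := TT_lt M g {v : V | v ≠ 0 ∧ ‖v‖ < 1} (fun v hv => hv.2)
      have h := hPRD E F V _ _ {v : V | v ≠ 0 ∧ ‖v‖ < 1} f hZ
      rw [← e1, ← e2] at h
      exact h
  have h2 : WE (TT N (fun x => g (f x))) M (fun q : E × V => f q.1) :=
    hCMP (E × V) (F × V) F _ _ _ _ Prod.fst claim hTM.2.1
  have : Nonempty (E × V) := ⟨(Classical.arbitrary E, 0)⟩
  exact hCN3 (E × V) E F _ _ _ Prod.fst f hf hTN.2.1 h2

end Pool.Agent.Helper61.FX
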