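import Pool.Agent.Helper84.FX.StX

set_option autoImplicit false

/-!
# Project FX (MP_3bffab_ag): module KF (the identity `ky - kx = - nu kappa`).
-/

namespace Pool.Agent.Helper61.FX

open Set
open Pool.Agent.Helper84.FX Pool.Agent.Helper72.FX

noncomputable section

variable {A : Type} [CommRing A] [Algebra ℂ A]

omit [Algebra ℂ A] in
private theorem det_NN (c : A) (w : A × A) : (1 + c • NN w).det = 1 := by
  rw [Matrix.det_fin_two]
  simp only [NN, Matrix.add_apply, Matrix.smul_apply, Matrix.one_apply_eq, Matrix.of_apply,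
    Matrix.cons_val', Matrix.cons_val_zero, Matrix.cons_val_one, Matrix.cons_val_fin_one,
    smul_eq_mul, ne_eq, zero_ne_one, one_ne_zero, not_false_eq_true, Matrix.one_apply_ne]
  ring

omit [Algebra ℂ A] in
private theorem det_NN' (c : A) (w : A × A) : (1 - c • NN w).det = 1 := by
  rw [sub_eq_add_neg, ← neg_smul]
  exact det_NN _ _

private theorem det_LL (m : A) (p q : ℂ) (a b t : A) : (LL m p q a b t).det = 1 := by
  rw [LL, Matrix.det_mul, det_NN', det_NN, mul_one]

private theorem det_gg (u a b t : A) : (gg u a b t).det = 1 := by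
  rw [gg, Matrix.det_mul, det_LL, det_LL, mul_one]

omit [Algebra ℂ A] in
private theorem det_J0 (t : A) : (J0 t).det = -t := by
  rw [J0, Matrix.det_fin_two_of]
  ring

private theorem det_SS (u a b t : A) : (SS u a b t).det = -t := by
  rw [SS, Matrix.det_neg, Matrix.det_mul, Matrix.det_mul, Matrix.det_transpose, det_gg, det_J0]
  simp

omit [Algebra ℂ A] in
private theorem J0_tr (t : A) : (J0 t).transpose = J0 t := by
  ext i j
  fin_cases i <;> fin_cases j <;> simp [J0]

private theorem SS_tr (u a b t : A) : (SS u a b t).transpose = SS u a b t := by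
  rw [SS, Matrix.transpose_neg, Matrix.transpose_mul, Matrix.transpose_mul,
    Matrix.transpose_transpose, J0_tr, Matrix.mul_assoc]

private theorem SS_sym (u a b t : A) : SS u a b t 1 0 = SS u a b t 0 1 := by
  have h := congrFun (congrFun (SS_tr u a b t) 0) 1
  rw [Matrix.transpose_apply] at h
  exact h

theorem hKF : StKK → StKF := by
  intro hK a b t
  have hkp : kp = hK.choose := dif_pos hK
  have hs := hK.choose_spec
  rw [← hkp] at hs
  obtain ⟨h00, h01, h11⟩ := hs
  have hdet := det_SS (A := MvPolynomial (Fin 3) ℂ) 1 (MvPolynomial.X 0) (MvPolynomial.X 1)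
    (MvPolynomial.X 2)
  rw [Matrix.det_fin_two, SS_sym, h00, h01, h11] at hdet
  have hnu : nu (MvPolynomial.X 0) (MvPolynomial.X 1) (MvPolynomial.X 2) ≠
      (0 : MvPolynomial (Fin 3) ℂ) := by
    intro h
    have h1 := congrArg (MvPolynomial.aeval ![(1 : ℂ), 0, 0]) h
    simp [nu] at h1
  have hX : (MvPolynomial.X 2 : MvPolynomial (Fin 3) ℂ) ≠ 0 := MvPolynomial.X_ne_zero 2
  have hz : (MvPolynomial.X 2 : MvPolynomial (Fin 3) ℂ) ^ 2 *
      nu (MvPolynomial.X 0) (MvPolynomial.X 1) (MvPolynomial.X 2) *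
      (kp 1 - kp 0 + nu (MvPolynomial.X 0) (MvPolynomial.X 1) (MvPolynomial.X 2) *
        (MvPolynomial.X 2 * kp 0 * kp 1 - kp 2 ^ 2)) = 0 := by
    linear_combination hdet
  have hw : kp 1 - kp 0 + nu (MvPolynomial.X 0) (MvPolynomial.X 1) (MvPolynomial.X 2) *
        (MvPolynomial.X 2 * kp 0 * kp 1 - kp 2 ^ 2) = 0 := by
    rcases mul_eq_zero.1 hz with h | h
    · exact absurd h (mul_ne_zero (pow_ne_zero 2 hX) hnu)
    · exact h
  have hv := congrArg (MvPolynomial.aeval ![a, b, t]) hw
  have hnu' : MvPolynomial.aeval ![a, b, t]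
      (nu (MvPolynomial.X 0) (MvPolynomial.X 1) (MvPolynomial.X 2) : MvPolynomial (Fin 3) ℂ) =
      nu a b t := by
    simp [nu]
  have hX2 : MvPolynomial.aeval ![a, b, t] (MvPolynomial.X 2 : MvPolynomial (Fin 3) ℂ) = t := by
    simp
  rw [map_add, map_sub, map_mul, map_sub, map_mul, map_mul, map_pow, map_zero, hnu', hX2] at hv
  change MvPolynomial.aeval ![a, b, t] (kp 1) - MvPolynomial.aeval ![a, b, t] (kp 0) =
    -(nu a b t * (t * MvPolynomial.aeval ![a, b, t] (kp 0) *
      MvPolynomial.aeval ![a, b, t] (kp 1) - MvPolynomial.aeval ![a, b, t] (kp 2) ^ 2))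
  linear_combination hv

end

end Pool.Agent.Helper61.FX
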