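import Pool.Agent.Helper87.FX.StA

set_option autoImplicit false

/-!
# Project FX (MP_3bffab_ag): module LIP (contraction perturbations of the identity).
-/

namespace Pool.Agent.Helper61.FX

open Set Topology Metric Filter
open scoped ContDiff NNReal
open Pool.Agent.Helper87.FX

theorem hLIP : StLIP := by
  intro E _ _ _ w hw hb
  have : CompleteSpace E := FiniteDimensional.complete ℝ E
  have hd : Differentiable ℝ w := hw.differentiable (by simp)
  have hL : LipschitzWith (1 / 2 : ℝ≥0) w := by
    apply lipschitzWith_of_nnnorm_fderiv_le hd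
    intro x
    have h := hb x
    rw [← NNReal.coe_le_coe]
    simpa using h
  have hL' : ∀ x y, ‖w x - w y‖ ≤ 1 / 2 * ‖x - y‖ := by
    intro x y
    have h := hL.dist_le_mul x y
    rw [dist_eq_norm, dist_eq_norm] at h
    simpa using h
  refine ⟨contDiff_id.add hw, ⟨?_, ?_⟩, ?_⟩
  · intro x y hxy
    simp only at hxy
    have h1 : x - y = w y - w x := by
      have h2 : x - y - (w y - w x) = (x + w x) - (y + w y) := by abel
      rw [hxy, sub_self] at h2
      exact sub_eq_zero.1 h2
    have h3 := hL' y x
    rw [← h1, norm_sub_rev y x] at h3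
    have h4 : ‖x - y‖ = 0 := by
      have := norm_nonneg (x - y)
      linarith
    exact sub_eq_zero.1 (norm_eq_zero.1 h4)
  · intro y
    have hc : ContractingWith (1 / 2 : ℝ≥0) (fun z => y - w z) := by
      refine ⟨by
        rw [← NNReal.coe_lt_coe]
        norm_num, ?_⟩
      apply LipschitzWith.of_dist_le_mul
      intro a b
      rw [dist_eq_norm, dist_eq_norm]
      have h := hL' b a
      rw [norm_sub_rev b a] at h
      have e : y - w a - (y - w b) = w b - w a := by abel
      rw [e]
      simpa using h
    refine ⟨ContractingWith.fixedPoint (fun z => y - w z) hc, ?_⟩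
    have h := hc.fixedPoint_isFixedPt
    have h' : y - w (ContractingWith.fixedPoint (fun z => y - w z) hc) =
        ContractingWith.fixedPoint (fun z => y - w z) hc := h
    simp only
    exact (sub_eq_iff_eq_add.1 h').symm
  · intro x
    have e : fderiv ℝ (fun x => x + w x) x = ContinuousLinearMap.id ℝ E + fderiv ℝ w x := by
      have h1 : HasFDerivAt (fun x : E => x) (ContinuousLinearMap.id ℝ E) x := hasFDerivAt_id x
      exact (h1.add (hd x).hasFDerivAt).fderiv
    rw [e]
    intro u v huv
    have h1 : u - v = fderiv ℝ w x (v - u) := by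
      simp only [ContinuousLinearMap.add_apply, ContinuousLinearMap.id_apply] at huv
      rw [map_sub]
      have h2 : u - v - (fderiv ℝ w x v - fderiv ℝ w x u) =
          (u + fderiv ℝ w x u) - (v + fderiv ℝ w x v) := by abel
      rw [huv, sub_self] at h2
      exact sub_eq_zero.1 h2
    have h3 : ‖u - v‖ ≤ 1 / 2 * ‖u - v‖ := by
      calc ‖u - v‖ = ‖fderiv ℝ w x (v - u)‖ := by rw [← h1]
        _ ≤ ‖fderiv ℝ w x‖ * ‖v - u‖ := ContinuousLinearMap.le_opNorm _ _
        _ ≤ 1 / 2 * ‖v - u‖ := mul_le_mul_of_nonneg_right (hb x) (norm_nonneg _)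
        _ = 1 / 2 * ‖u - v‖ := by rw [norm_sub_rev]
    have h4 : ‖u - v‖ = 0 := by
      have := norm_nonneg (u - v)
      linarith
    exact sub_eq_zero.1 (norm_eq_zero.1 h4)

end Pool.Agent.Helper61.FX
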