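import Pool.Agent.Helper87.FX.StB

set_option autoImplicit false

/-!
# Project FX (MP_3bffab_ag): module NUL (null homotopies of compact subsets).
-/

namespace Pool.Agent.Helper61.FX

open Set Topology Metric Filter
open scoped ContDiff
open Pool.Agent.Helper87.FX

theorem hNUL (hGRD : StGRD) : StNUL := by
  intro V _ _ _ Y hWC hRet L y₀ hL hLY hy
  obtain ⟨O, r, hO, hLO, hrc, hrm, hre⟩ := hRet (L ∪ {y₀}) (hL.union isCompact_singleton)
    (union_subset hLY (singleton_subset_iff.2 hy))
  have hdim : Module.finrank ℝ V = Module.finrank ℝ (Fin (Module.finrank ℝ V) → ℝ) := by simp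
  let κ : V ≃L[ℝ] (Fin (Module.finrank ℝ V) → ℝ) := ContinuousLinearEquiv.ofFinrankEq hdim
  obtain ⟨R, hRc, hRY, hRe⟩ := hGRD V Y hWC (Module.finrank ℝ V) (κ '' (L ∪ {y₀}))
    (κ.symm ⁻¹' O) (fun x => r (κ.symm x))
    ((hL.union isCompact_singleton).image κ.continuous)
    (hO.preimage κ.symm.continuous)
    (by
      rintro _ ⟨x, hx, rfl⟩
      simpa using hLO hx)
    (hrc.comp κ.symm.continuous.continuousOn (fun x hx => hx))
    (fun x hx => hrm hx)
  have key : ∀ x ∈ L ∪ {y₀}, R (κ x) = x := by
    intro x hx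
    have h1 := hRe (mem_image_of_mem κ hx)
    simp only [ContinuousLinearEquiv.symm_apply_apply] at h1
    rw [h1]
    exact hre hx
  refine ⟨fun x t => R (κ ((1 - t) • x + t • y₀)), ?_, ?_, ?_, ?_⟩
  · apply Continuous.continuousOn
    apply hRc.comp
    apply κ.continuous.comp
    fun_prop
  · intro x _ t _
    exact hRY _
  · intro x hx
    have h := key x (Or.inl hx)
    simpa using h
  · intro x _
    have h := key y₀ (Or.inr rfl)
    simpa using h

end Pool.Agent.Helper61.FX
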